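import Pool.Agent.H.MP_0bba66_co.Main

namespace Pool.Agent.Results.MP_0bba66_co.Full
open Pool.Agent.H.MP_0bba66_co

theorem result : (∀ j : ℕ, 1 ≤ j → f (3 * j) (10 * j) ≤ 9) ∧
    ¬ ∀ k N : ℕ, 0 < k → 0 < N → N ≤ k ^ 2 → f k N = N * (N / k) / k := by
  refine ⟨main, fun h => ?_⟩
  have h1 := h 6 20 (by norm_num) (by norm_num) (by norm_num)
  have h2 := main 2 (by norm_num)
  norm_num at h1 h2
  omega

end Pool.Agent.Results.MP_0bba66_co.Full
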